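import Pool.Agent.J4H34.DN.Stm

/-!
# Project DN, (D): all roots, one after the other
-/

set_option autoImplicit false

namespace Pool.Agent.J4H68.DN

open Polynomial Complex
open Pool.Agent.J4H34.DN

/-- the polynomial with the leading coefficient `a` and the roots `s` -/
noncomputable def P (a : ℂ) (s : Multiset ℂ) : ℂ[X] := C a * (s.map (fun w => X - C w)).prod

theorem P_ne {a : ℂ} (ha : a ≠ 0) (s : Multiset ℂ) : P a s ≠ 0 := by
  refine mul_ne_zero (C_ne_zero.2 ha) ?_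
  exact (monic_multiset_prod_of_monic _ _ fun w _ => monic_X_sub_C w).ne_zero

theorem P_roots {a : ℂ} (ha : a ≠ 0) (s : Multiset ℂ) : (P a s).roots = s := by
  rw [P, roots_C_mul _ ha, roots_multiset_prod_X_sub_C]

theorem P_cons (a ζ : ℂ) (s : Multiset ℂ) : P a (ζ ::ₘ s) = (X - C ζ) * P a s := by
  rw [P, P, Multiset.map_cons, Multiset.prod_cons]
  ring

theorem eq_P (p : ℂ[X]) : p = P p.leadingCoeff p.roots :=
  (IsAlgClosed.splits p).eq_prod_roots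

theorem star_P (y : ℝ) (p : ℂ[X]) : star y p = P p.leadingCoeff (p.roots.map (fold y)) := by
  unfold Pool.Agent.J4H34.DN.star P
  rw [Multiset.map_map]
  rfl

/-- the square modulus -/
theorem nsq (x₀ R : ℝ) (w : ℂ) : ‖(⟨x₀, R + 1⟩ : ℂ) - w‖ ^ 2 = (x₀ - w.re) ^ 2 + (R + 1 - w.im) ^ 2 := by
  rw [Complex.sq_norm, Complex.normSq_apply]
  simp only [Complex.sub_re, Complex.sub_im]
  ring

theorem term {R x₀ : ℝ} (hR : 1 ≤ R) (w : ℂ) (h1 : -3 ≤ w.im) (h2 : w.im ≤ 1) :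
    R / ((R + 4) ^ 2 + (x₀ - w.re) ^ 2) ≤ (R + 1 - w.im) / ‖(⟨x₀, R + 1⟩ : ℂ) - w‖ ^ 2 := by
  rw [nsq]
  have h3 : R ≤ R + 1 - w.im := by linarith
  have h4 : R + 1 - w.im ≤ R + 4 := by linarith
  have h5 : 0 < (x₀ - w.re) ^ 2 + (R + 1 - w.im) ^ 2 := by
    have : 0 < (R + 1 - w.im) ^ 2 := by
      have : 0 < R + 1 - w.im := by linarith
      positivity
    nlinarith [sq_nonneg (x₀ - w.re)]
  have h6 : (x₀ - w.re) ^ 2 + (R + 1 - w.im) ^ 2 ≤ (R + 4) ^ 2 + (x₀ - w.re) ^ 2 := by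
    nlinarith
  have h7 : 0 ≤ R + 1 - w.im := by linarith
  calc R / ((R + 4) ^ 2 + (x₀ - w.re) ^ 2) ≤ (R + 1 - w.im) / ((R + 4) ^ 2 + (x₀ - w.re) ^ 2) := by
        gcongr
    _ ≤ _ := by gcongr

theorem step (hC : S_C) {a : ℂ} (ha : a ≠ 0) {y R Λ x₀ : ℝ} {n : ℕ} (hR : 1 ≤ R) (hΛ : 0 < Λ)
    (hn : 8 * (n : ℝ) ≤ Λ * R) (s : Multiset ℂ) (ζ : ℂ) (hs : ∀ w ∈ s, -3 ≤ w.im ∧ w.im ≤ 1)
    (hζ : ζ.im ≤ 1)
    (hsum : Λ + 1 / R ≤ ((ζ ::ₘ s).map (fun w => R / ((R + 4) ^ 2 + (x₀ - w.re) ^ 2))).sum)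
    (hy : y < ζ.im) :
    (derivative^[n] (P a (ζ ::ₘ s))).eval ⟨x₀, R + 1⟩ ≠ 0 ∧
    ‖(derivative^[n] (P a (refl y ζ ::ₘ s))).eval ⟨x₀, R + 1⟩‖ ≤
      Real.exp (5 * ((ζ.im - y) * (R + 1 - y) / ‖(⟨x₀, R + 1⟩ : ℂ) - ζ‖ ^ 2)) *
        ‖(derivative^[n] (P a (ζ ::ₘ s))).eval ⟨x₀, R + 1⟩‖ := by
  have hR0 : 0 < R := by linarith
  rw [P_cons, P_cons]
  refine hC (P a s) ⟨x₀, R + 1⟩ ζ y R Λ n (P_ne ha s) hR0 hΛ ?_ ?_ hn hy ?_
  · intro w hw
    rw [P_roots ha] at hw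
    show w.im + R ≤ R + 1
    linarith [(hs w hw).2]
  · rw [P_roots ha]
    rw [Multiset.map_cons, Multiset.sum_cons] at hsum
    have h1 : R / ((R + 4) ^ 2 + (x₀ - ζ.re) ^ 2) ≤ 1 / R := by
      rw [div_le_div_iff₀ (by positivity) hR0]
      nlinarith [sq_nonneg (x₀ - ζ.re)]
    have h2 : (s.map (fun w => R / ((R + 4) ^ 2 + (x₀ - w.re) ^ 2))).sum ≤
        (s.map (fun w => ((⟨x₀, R + 1⟩ : ℂ).im - w.im) / ‖(⟨x₀, R + 1⟩ : ℂ) - w‖ ^ 2)).sum := by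
      refine Multiset.sum_map_le_sum_map _ _ fun w hw => ?_
      exact term hR w (hs w hw).1 (hs w hw).2
    linarith
  · show ζ.im + R ≤ R + 1
    linarith

/-- **(D)** by induction over the roots -/
theorem main (hC : S_C) {a : ℂ} (ha : a ≠ 0) {y R Λ x₀ : ℝ} {n : ℕ} (hy1 : -1 ≤ y) (hy2 : y ≤ 1)
    (hR : 1 ≤ R) (hΛ : 0 < Λ) (hn : 8 * (n : ℝ) ≤ Λ * R) (s : Multiset ℂ) :
    ∀ t : Multiset ℂ, (∀ w ∈ s, |w.im| ≤ 1) → (∀ w ∈ t, -3 ≤ w.im ∧ w.im ≤ 1) →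
    Λ + 1 / R ≤ ((s + t).map (fun w => R / ((R + 4) ^ 2 + (x₀ - w.re) ^ 2))).sum →
    ‖(derivative^[n] (P a (s.map (fold y) + t))).eval ⟨x₀, R + 1⟩‖ ≤
      Real.exp (5 * (s.map (fun w => max (w.im - y) 0 * (R + 1 - y) /
        ‖(⟨x₀, R + 1⟩ : ℂ) - w‖ ^ 2)).sum) *
        ‖(derivative^[n] (P a (s + t))).eval ⟨x₀, R + 1⟩‖ := by
  induction s using Multiset.induction_on with
  | empty =>
    intro t _ _ _
    simp
  | cons ζ s ih =>
    intro t hs ht hsum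
    have hζ := abs_le.1 (hs ζ (Multiset.mem_cons_self _ _))
    have hs' : ∀ w ∈ s, |w.im| ≤ 1 := fun w hw => hs w (Multiset.mem_cons_of_mem hw)
    have hst : ∀ w ∈ s + t, -3 ≤ w.im ∧ w.im ≤ 1 := by
      intro w hw
      rcases Multiset.mem_add.1 hw with h | h
      · have := abs_le.1 (hs' w h)
        exact ⟨by linarith [this.1], this.2⟩
      · exact ht w h
    have hre : (fold y ζ).re = ζ.re := by
      unfold fold
      split_ifs
      · rfl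
      · rfl
    have h1 := ih (fold y ζ ::ₘ t) hs' (by
      intro w hw
      rcases Multiset.mem_cons.1 hw with h | h
      · rw [h]
        unfold fold
        split_ifs with h2
        · show -3 ≤ 2 * y - ζ.im ∧ 2 * y - ζ.im ≤ 1
          exact ⟨by linarith [hζ.2], by linarith⟩
        · exact ⟨by linarith [hζ.1], hζ.2⟩
      · exact ht w h) (by
      rw [Multiset.add_cons, Multiset.map_cons, Multiset.sum_cons, hre]
      rw [Multiset.cons_add, Multiset.map_cons, Multiset.sum_cons] at hsum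
      exact hsum)
    have e1 : (ζ ::ₘ s).map (fold y) + t = s.map (fold y) + fold y ζ ::ₘ t := by
      rw [Multiset.map_cons, Multiset.cons_add, Multiset.add_cons]
    have e2 : s + fold y ζ ::ₘ t = fold y ζ ::ₘ (s + t) := Multiset.add_cons _ _ _
    have h2 : ‖(derivative^[n] (P a (fold y ζ ::ₘ (s + t)))).eval (⟨x₀, R + 1⟩ : ℂ)‖ ≤
        Real.exp (5 * (max (ζ.im - y) 0 * (R + 1 - y) / ‖(⟨x₀, R + 1⟩ : ℂ) - ζ‖ ^ 2)) *
        ‖(derivative^[n] (P a (ζ ::ₘ (s + t)))).eval (⟨x₀, R + 1⟩ : ℂ)‖ := by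
      by_cases hy : y < ζ.im
      · have e3 : fold y ζ = refl y ζ := if_pos hy
        rw [e3, max_eq_left (by linarith)]
        refine (step hC ha hR hΛ hn (s + t) ζ hst hζ.2 ?_ hy).2
        rwa [Multiset.cons_add] at hsum
      · have e3 : fold y ζ = ζ := if_neg hy
        rw [e3, max_eq_right (by linarith)]
        simp
    rw [e1]
    rw [e2] at h1
    refine h1.trans ?_
    rw [Multiset.map_cons, Multiset.sum_cons, Multiset.cons_add, mul_add, Real.exp_add]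
    calc _ ≤ Real.exp (5 * (s.map (fun w => max (w.im - y) 0 * (R + 1 - y) /
            ‖(⟨x₀, R + 1⟩ : ℂ) - w‖ ^ 2)).sum) *
          (Real.exp (5 * (max (ζ.im - y) 0 * (R + 1 - y) / ‖(⟨x₀, R + 1⟩ : ℂ) - ζ‖ ^ 2)) *
          ‖(derivative^[n] (P a (ζ ::ₘ (s + t)))).eval (⟨x₀, R + 1⟩ : ℂ)‖) :=
          mul_le_mul_of_nonneg_left h2 (Real.exp_pos _).le
      _ = _ := by ring

/-- **(D)** -/
theorem t_D : S_C → S_D := by
  intro hC p y R Λ x₀ n hp hw hy1 hy2 hR hΛ hsum hn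
  have ha : p.leadingCoeff ≠ 0 := leadingCoeff_ne_zero.2 hp
  constructor
  · -- the polynomial has a root
    have hne : p.roots ≠ 0 := by
      intro h
      rw [h] at hsum
      simp only [Multiset.map_zero, Multiset.sum_zero] at hsum
      have : 0 < 1 / R := by positivity
      linarith
    obtain ⟨ζ, hζ⟩ := Multiset.exists_mem_of_ne_zero hne
    obtain ⟨s, hs⟩ := Multiset.exists_cons_of_mem hζ
    have h1 := (step hC ha hR hΛ hn (y := ζ.im - 1) s ζ (by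
      intro w h
      have := abs_le.1 (hw w (by rw [hs]; exact Multiset.mem_cons_of_mem h))
      exact ⟨by linarith [this.1], this.2⟩) (abs_le.1 (hw ζ hζ)).2 (by rw [← hs]; exact hsum)
      (by linarith)).1
    rw [← hs, ← eq_P] at h1
    exact h1
  · have h1 := main hC ha hy1 hy2 hR hΛ hn p.roots 0 hw (by simp) (by rw [add_zero]; exact hsum)
    rw [add_zero, add_zero, ← star_P, ← eq_P] at h1
    exact h1

end Pool.Agent.J4H68.DN
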